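import Pool.Agent.Helper99.AB.Stmts
import Pool.Agent.Helper61.SO.MER

/-!
# AB: row QF (four prime shifts in an interval)
-/

set_option autoImplicit false

open Finset
open scoped BigOperators

namespace Pool.Agent.Helper99.AB

theorem qf_card (l : ℕ) [Fact l.Prime] (c : Fin 4 → ℤ) :
    4 - 3 * (((univ : Finset (Fin 4 × Fin 4)).filter (fun r => r.1 < r.2 ∧
      (l : ℤ) ∣ c r.1 - c r.2)).card : ℝ) ≤
      (((univ : Finset (Fin 4)).image (fun i => (c i : ZMod l))).card : ℝ) := by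
  by_cases hinj : Function.Injective (fun i => (c i : ZMod l))
  · rw [Finset.card_image_of_injective _ hinj, Finset.card_univ, Fintype.card_fin]
    have : (0 : ℝ) ≤ (((univ : Finset (Fin 4 × Fin 4)).filter (fun r => r.1 < r.2 ∧
      (l : ℤ) ∣ c r.1 - c r.2)).card : ℝ) := Nat.cast_nonneg _
    push_cast
    linarith
  · have h1 : 1 ≤ ((univ : Finset (Fin 4 × Fin 4)).filter (fun r => r.1 < r.2 ∧
      (l : ℤ) ∣ c r.1 - c r.2)).card := by
      rw [Nat.one_le_iff_ne_zero, ← Nat.pos_iff_ne_zero, Finset.card_pos]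
      unfold Function.Injective at hinj
      push Not at hinj
      obtain ⟨i, k, hik, hne⟩ := hinj
      have hd : (l : ℤ) ∣ c i - c k := by
        rw [← ZMod.intCast_zmod_eq_zero_iff_dvd, Int.cast_sub, hik, sub_self]
      rcases lt_or_gt_of_ne hne with h | h
      · exact ⟨(i, k), Finset.mem_filter.2 ⟨Finset.mem_univ _, h, hd⟩⟩
      · exact ⟨(k, i), Finset.mem_filter.2 ⟨Finset.mem_univ _, h, by
          rw [← neg_sub]
          exact (dvd_neg).2 hd⟩⟩
    have h2 : 1 ≤ ((univ : Finset (Fin 4)).image (fun i => (c i : ZMod l))).card := by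
      rw [Nat.one_le_iff_ne_zero, ← Nat.pos_iff_ne_zero, Finset.card_pos]
      exact (Finset.univ_nonempty (α := Fin 4)).image _
    have h1' : (1 : ℝ) ≤ (((univ : Finset (Fin 4 × Fin 4)).filter (fun r => r.1 < r.2 ∧
      (l : ℤ) ∣ c r.1 - c r.2)).card : ℝ) := by exact_mod_cast h1
    have h2' : (1 : ℝ) ≤ (((univ : Finset (Fin 4)).image (fun i => (c i : ZMod l))).card : ℝ) := by
      exact_mod_cast h2
    linarith

theorem st_QF (hSV : ST_SV4) : ST_QF := by
  obtain ⟨b, C₁, hb, hC₁, hS⟩ := hSV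
  obtain ⟨C₂, hC₂, hMer⟩ := Pool.Agent.Helper17.SO.mer_abs
  set b' : ℕ := max b 2 with hb'
  have hb2 : 2 ≤ b' := le_max_right _ _
  have hbb : b ≤ b' := le_max_left _ _
  have hb'0 : (0 : ℝ) < b' := by
    have : 0 < b' := by omega
    exact_mod_cast this
  refine ⟨C₁ * (Real.exp (4 * (C₂ + 4)) * (2 * b') ^ 4), by positivity, 2 ^ (2 * b'), ?_⟩
  intro X u h M hX hXM hM hne S hSx
  -- the level z
  have hX1 : (1 : ℝ) ≤ X := by
    have : 1 ≤ X := le_trans Nat.one_le_two_pow hX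
    exact_mod_cast this
  have hX0 : (0 : ℝ) < X := by linarith
  have hlogX : 2 * b' * Real.log 2 ≤ Real.log X := by
    have h1 : ((2 : ℝ) ^ (2 * b')) ≤ X := by exact_mod_cast hX
    have h2 := Real.log_le_log (by positivity) h1
    rw [Real.log_pow] at h2
    push_cast at h2
    exact h2
  have hlog2 : 0 < Real.log 2 := Real.log_pos (by norm_num)
  have hlogX0 : 0 < Real.log X := by
    have : 0 < 2 * b' * Real.log 2 := by positivity
    linarith
  set y : ℝ := (X : ℝ) ^ (1 / (b' : ℝ)) with hy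
  have hy0 : 0 < y := Real.rpow_pos_of_pos hX0 _
  have hlogy : Real.log y = Real.log X / b' := by
    rw [hy, Real.log_rpow hX0]
    ring
  have hy4 : 4 ≤ y := by
    have h1 : Real.log 4 ≤ Real.log y := by
      rw [hlogy, le_div_iff₀ hb'0, show (4 : ℝ) = 2 ^ 2 by norm_num, Real.log_pow]
      push_cast
      linarith
    exact (Real.log_le_log_iff (by norm_num) hy0).1 h1
  have hyb : y ^ b' = X := by
    rw [hy, ← Real.rpow_natCast, ← Real.rpow_mul hX0.le]
    rw [one_div, inv_mul_cancel₀ hb'0.ne', Real.rpow_one]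
  set z : ℕ := ⌊y⌋₊ with hz
  have hzy : (z : ℝ) ≤ y := Nat.floor_le hy0.le
  have hyz : y < z + 1 := Nat.lt_floor_add_one y
  have hz2 : 2 ≤ z := by
    rw [hz, Nat.le_floor_iff hy0.le]
    push_cast
    linarith
  have hz2' : (2 : ℝ) ≤ z := by exact_mod_cast hz2
  have hzb' : z ^ b' ≤ X := by
    have h1 : (z : ℝ) ^ b' ≤ y ^ b' := pow_le_pow_left₀ (by positivity) hzy _
    rw [hyb] at h1
    exact_mod_cast h1
  have hzb : z ^ b ≤ X := (Nat.pow_le_pow_right (by omega) hbb).trans hzb'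
  have hzM : (z : ℝ) ≤ M := by
    have h1 : (z : ℝ) ^ 2 ≤ X := by
      have : z ^ 2 ≤ X := (Nat.pow_le_pow_right (by omega) hb2).trans hzb'
      exact_mod_cast this
    exact (pow_le_pow_iff_left₀ (by positivity) hM.le (by norm_num : (2 : ℕ) ≠ 0)).1
      (h1.trans hXM)
  have hlogz : Real.log X / (2 * b') ≤ Real.log z := by
    have h1 : y / 2 ≤ z := by linarith
    have h2 := Real.log_le_log (by positivity) h1
    rw [Real.log_div hy0.ne' (by norm_num), hlogy] at h2
    have h3 : Real.log 2 ≤ Real.log X / (2 * b') := by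
      rw [le_div_iff₀ (by positivity)]
      linarith
    have h4 : Real.log X / b' = 2 * (Real.log X / (2 * b')) := by
      field_simp
    linarith
  have hlogz0 : 0 < Real.log z := lt_of_lt_of_le (by positivity) hlogz
  -- the sieve
  set P : Finset ℕ := (range (z + 1)).filter (fun l => l.Prime ∧ 11 ≤ l) with hP
  set Ω : (l : ℕ) → Finset (ZMod l) := fun l => (univ : Finset (Fin 4)).image
    (fun i => ((-(u + 1 + h i) : ℤ) : ZMod l)) with hΩ
  have hPm : ∀ l ∈ P, l.Prime ∧ 11 ≤ l ∧ l ≤ z := fun l hl => by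
    rw [hP, Finset.mem_filter, Finset.mem_range] at hl
    exact ⟨hl.2.1, hl.2.2, by omega⟩
  have hΩc : ∀ l, (Ω l).card ≤ 4 := fun l => by
    refine Finset.card_image_le.trans ?_
    simp
  set S' : Finset ℕ := S.image (fun x => (x - u - 1).toNat) with hS'
  have hcard : S'.card = S.card := by
    refine Finset.card_image_of_injOn ?_
    intro x hx x' hx' hxx
    have h1 := (hSx x hx).1
    have h2 := (hSx x' hx').1
    simp only at hxx
    omega
  have hsieve := hS z X P Ω hz2 hzb (fun l hl => ⟨(hPm l hl).1, (hPm l hl).2.1, (hPm l hl).2.2,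
    hΩc l⟩) S' (by
    intro t ht
    rw [hS', Finset.mem_image] at ht
    obtain ⟨x, hx, rfl⟩ := ht
    obtain ⟨h1, h2, h3⟩ := hSx x hx
    refine ⟨by omega, ?_⟩
    intro l hl hmem
    obtain ⟨lp, -, lz⟩ := hPm l hl
    simp only [hΩ, Finset.mem_image, Finset.mem_univ, true_and] at hmem
    obtain ⟨i, hi⟩ := hmem
    obtain ⟨p, hp, hMp, hpx⟩ := h3 i
    have h4 : ((((x - u - 1).toNat : ℕ) : ℤ) : ZMod l) = ((x - u - 1 : ℤ) : ZMod l) := by
      rw [Int.toNat_of_nonneg (by omega)]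
    have h5 : ((p : ℤ) : ZMod l) = 0 := by
      rw [hpx]
      have h6 : (((x - u - 1).toNat : ℕ) : ZMod l) = ((x - u - 1 : ℤ) : ZMod l) := by
        rw [← h4]
        push_cast
        rfl
      rw [h6] at hi
      have h7 : ((x + h i : ℤ) : ZMod l) = ((x - u - 1 : ℤ) : ZMod l) -
          ((-(u + 1 + h i) : ℤ) : ZMod l) := by
        push_cast
        ring
      rw [h7, hi, sub_self]
    have h8 : l ∣ p := by
      rw [ZMod.intCast_zmod_eq_zero_iff_dvd] at h5
      exact_mod_cast h5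
    have h9 : l = p := (Nat.prime_dvd_prime_iff_eq lp hp).1 h8
    have h10 : (l : ℝ) ≤ z := by exact_mod_cast lz
    rw [h9] at h10
    linarith)
  rw [hcard] at hsieve
  -- the sum
  have hkey : 4 * ∑ l ∈ P, 1 / (l : ℝ) -
      3 * ∑ r ∈ (univ : Finset (Fin 4 × Fin 4)).filter (fun r => r.1 < r.2),
        ∑ l ∈ (h r.1 - h r.2).natAbs.primeFactors, 1 / (l : ℝ) ≤
      ∑ l ∈ P, ((Ω l).card : ℝ) / l := by
    have e1 : ∑ l ∈ P, (4 * (1 / (l : ℝ)) - 3 * ∑ r ∈ (univ : Finset (Fin 4 × Fin 4)).filter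
        (fun r => r.1 < r.2), (if (l : ℤ) ∣ h r.1 - h r.2 then 1 / (l : ℝ) else 0)) ≤
        ∑ l ∈ P, ((Ω l).card : ℝ) / l := by
      refine Finset.sum_le_sum fun l hl => ?_
      obtain ⟨lp, l11, -⟩ := hPm l hl
      have : Fact l.Prime := ⟨lp⟩
      have hl0 : (0 : ℝ) < l := by exact_mod_cast lp.pos
      have h1 := qf_card l (fun i => -(u + 1 + h i))
      have h2 : ((univ : Finset (Fin 4 × Fin 4)).filter (fun r => r.1 < r.2 ∧
          (l : ℤ) ∣ -(u + 1 + h r.1) - -(u + 1 + h r.2))) =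
          ((univ : Finset (Fin 4 × Fin 4)).filter (fun r => r.1 < r.2)).filter
            (fun r => (l : ℤ) ∣ h r.1 - h r.2) := by
        rw [Finset.filter_filter]
        refine Finset.filter_congr fun r _ => and_congr_right fun _ => ?_
        rw [← dvd_neg]
        have : -(-(u + 1 + h r.1) - -(u + 1 + h r.2)) = h r.1 - h r.2 := by ring
        rw [this]
      rw [h2] at h1
      have h3 : ∑ r ∈ (univ : Finset (Fin 4 × Fin 4)).filter (fun r => r.1 < r.2),
          (if (l : ℤ) ∣ h r.1 - h r.2 then 1 / (l : ℝ) else 0) =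
          ((((univ : Finset (Fin 4 × Fin 4)).filter (fun r => r.1 < r.2)).filter
            (fun r => (l : ℤ) ∣ h r.1 - h r.2)).card : ℝ) * (1 / (l : ℝ)) := by
        rw [← Finset.sum_filter, Finset.sum_const, nsmul_eq_mul]
      rw [h3]
      have h4 : ((Ω l).card : ℝ) / l = ((Ω l).card : ℝ) * (1 / (l : ℝ)) := by ring
      rw [h4]
      have h5 : (0 : ℝ) ≤ 1 / (l : ℝ) := by positivity
      have h6 := mul_le_mul_of_nonneg_right h1 h5
      calc _ = (4 - 3 * ((((univ : Finset (Fin 4 × Fin 4)).filter (fun r => r.1 < r.2)).filter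
            (fun r => (l : ℤ) ∣ h r.1 - h r.2)).card : ℝ)) * (1 / (l : ℝ)) := by ring
        _ ≤ _ := h6
    rw [Finset.sum_sub_distrib, ← Finset.mul_sum, ← Finset.mul_sum, Finset.sum_comm] at e1
    refine le_trans (sub_le_sub_left (mul_le_mul_of_nonneg_left (Finset.sum_le_sum fun r hr => ?_)
      (by norm_num)) _) e1
    rw [← Finset.sum_filter]
    refine Finset.sum_le_sum_of_subset_of_nonneg ?_ (fun _ _ _ => by positivity)
    intro l hl
    rw [Finset.mem_filter] at hl
    have hne0 : h r.1 - h r.2 ≠ 0 := sub_ne_zero.2 (hne _ _ (Finset.mem_filter.1 hr).2)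
    rw [Nat.mem_primeFactors]
    exact ⟨(hPm l hl.1).1, Int.natCast_dvd.1 hl.2, Int.natAbs_ne_zero.2 hne0⟩
  have hmer : Real.log (Real.log z) - C₂ - 4 ≤ ∑ l ∈ P, 1 / (l : ℝ) := by
    have h1 := (abs_le.1 (hMer z hz2)).1
    have h2 : ∑ p ∈ (range (z + 1)).filter Nat.Prime, 1 / (p : ℝ) ≤
        ∑ l ∈ P, 1 / (l : ℝ) + ∑ l ∈ ({2, 3, 5, 7} : Finset ℕ), 1 / (l : ℝ) := by
      rw [← Finset.sum_union_inter (s₁ := P)]
      have h3 : (range (z + 1)).filter Nat.Prime ⊆ P ∪ ({2, 3, 5, 7} : Finset ℕ) := by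
        intro l hl
        rw [Finset.mem_filter, Finset.mem_range] at hl
        rw [Finset.mem_union]
        by_cases h11 : 11 ≤ l
        · exact Or.inl (Finset.mem_filter.2 ⟨Finset.mem_range.2 hl.1, hl.2, h11⟩)
        · right
          have hl2 := hl.2
          have : l < 11 := by omega
          interval_cases l <;> first | (simp; done) | (exact absurd hl2 (by decide))
      have h4 := Finset.sum_le_sum_of_subset_of_nonneg h3
        (f := fun l : ℕ => 1 / (l : ℝ)) (fun _ _ _ => by positivity)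
      have h5 : 0 ≤ ∑ l ∈ P ∩ ({2, 3, 5, 7} : Finset ℕ), 1 / (l : ℝ) :=
        Finset.sum_nonneg fun _ _ => by positivity
      linarith
    have h3 : ∑ l ∈ ({2, 3, 5, 7} : Finset ℕ), 1 / (l : ℝ) ≤ 4 := by
      norm_num [Finset.sum_insert]
    linarith
  have hfin : Real.exp (-∑ l ∈ P, ((Ω l).card : ℝ) / l) ≤
      (Real.exp (4 * (C₂ + 4)) * (2 * b') ^ 4) / Real.log X ^ 4 *
        ∏ r ∈ (univ : Finset (Fin 4 × Fin 4)).filter (fun r => r.1 < r.2), G (h r.1 - h r.2) ^ 3 := by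
    have h1 : ∏ r ∈ (univ : Finset (Fin 4 × Fin 4)).filter (fun r => r.1 < r.2),
        G (h r.1 - h r.2) ^ 3 = Real.exp (3 * ∑ r ∈ (univ : Finset (Fin 4 × Fin 4)).filter
          (fun r => r.1 < r.2), ∑ l ∈ (h r.1 - h r.2).natAbs.primeFactors, 1 / (l : ℝ)) := by
      rw [Finset.mul_sum, Real.exp_sum]
      refine Finset.prod_congr rfl fun r _ => ?_
      unfold G
      rw [← Real.exp_nat_mul]
      norm_num
    rw [h1]
    set Sg := ∑ r ∈ (univ : Finset (Fin 4 × Fin 4)).filter (fun r => r.1 < r.2),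
      ∑ l ∈ (h r.1 - h r.2).natAbs.primeFactors, 1 / (l : ℝ) with hSg
    have h2 : Real.exp (-∑ l ∈ P, ((Ω l).card : ℝ) / l) ≤
        Real.exp (4 * (C₂ + 4) - 4 * Real.log (Real.log z) + 3 * Sg) := by
      refine Real.exp_le_exp.2 ?_
      linarith
    refine h2.trans ?_
    rw [Real.exp_add, Real.exp_sub]
    refine mul_le_mul_of_nonneg_right ?_ (Real.exp_pos _).le
    have h3 : Real.exp (4 * Real.log (Real.log z)) = Real.log z ^ 4 := by
      have h4 : (4 : ℝ) * Real.log (Real.log z) = ((4 : ℕ) : ℝ) * Real.log (Real.log z) := by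
        norm_num
      rw [h4, Real.exp_nat_mul, Real.exp_log hlogz0]
    rw [h3]
    have h5 : (Real.log X / (2 * b')) ^ 4 ≤ Real.log z ^ 4 :=
      pow_le_pow_left₀ (by positivity) hlogz 4
    have h6 : 0 < (Real.log X / (2 * b')) ^ 4 := by positivity
    calc Real.exp (4 * (C₂ + 4)) / Real.log z ^ 4 ≤
        Real.exp (4 * (C₂ + 4)) / (Real.log X / (2 * b')) ^ 4 :=
          div_le_div_of_nonneg_left (Real.exp_pos _).le h6 h5
      _ = _ := by
          rw [div_pow]
          field_simp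
  calc (S.card : ℝ) ≤ C₁ * X * Real.exp (-∑ l ∈ P, ((Ω l).card : ℝ) / l) := hsieve
    _ ≤ C₁ * X * ((Real.exp (4 * (C₂ + 4)) * (2 * b') ^ 4) / Real.log X ^ 4 *
        ∏ r ∈ (univ : Finset (Fin 4 × Fin 4)).filter (fun r => r.1 < r.2),
          G (h r.1 - h r.2) ^ 3) := mul_le_mul_of_nonneg_left hfin (by positivity)
    _ = _ := by ring

end Pool.Agent.Helper99.AB
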